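import Mathlib
import Pool.Agent.Helper58.SemigroupH.Defs
import Pool.Agent.Helper58.SemigroupH.Proof
import Pool.Agent.Helper35.SG.Ideal

set_option autoImplicit false

/-!
# All semigroups with Properties 1 and 2

A semigroup `S` has both properties exactly when it has an ideal `I` consisting of idempotents (so
`I` is a band and `S` an ideal extension of a band) such that every element outside `I` has only
finitely many factorisations, every `e ∈ I` has only finitely many square roots and only finitely
many factorisations `e = ab` with `a² ≠ e` and `b² ≠ e`, and some `e ∈ I` satisfies `eb = e` or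
`be = e` for infinitely many `b`.

Without mention of `I`: (a) every element has only finitely many square roots, (b) every element
`x` that is not idempotent has only finitely many factorisations `x = ab`, (c) every idempotent `e`
has only finitely many factorisations `e = ab` in which neither `a` nor `b` is a square root of
`e`, and (d) for some idempotent `e` there are infinitely many `b` with `eb = e` or `be = e`.

Let `R` (`L`) be the set of the `e` with `eb = e` (`be = e`) for infinitely many `b`.  In a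
semigroup with both properties `R ∪ L` is the set of all elements with infinitely many
factorisations, it is an ideal and consists of idempotents; `R` is a left ideal, `L` a right ideal
(either may be empty), and for `e ∈ R` and `x ∈ S` one has `ex² = ex` and either `ex = e` or
`x³ = x² ∈ L`; and dually.
-/

namespace Pool.Agent.Results.MP_3b8abe_co.TwoFoldCriterion

open Pool.Agent.Helper58.SemigroupH

universe u

/-- If `c * b = c * c` for infinitely many `b`, square roots are finite in number and every element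
has finitely many factorisations avoiding its square roots, then `c * c` is idempotent and is fixed
by infinitely many right multiplications. -/
theorem idem_left {S : Type u} [Semigroup S]
    (ha : ∀ x : S, {c : S | c * c = x}.Finite)
    (hb : ∀ x : S, {p : S × S | p.1 * p.2 = x ∧ p.1 * p.1 ≠ x ∧ p.2 * p.2 ≠ x}.Finite)
    (c : S) (hc : {b : S | c * b = c * c}.Infinite) :
    (c * c) * (c * c) = c * c ∧ {b : S | (c * c) * b = c * c}.Infinite := by
  set x : S := c * c * c with hx
  have h4 : (c * c) * (c * c) = x := by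
    by_contra hne
    apply hc
    have h1 : {b : S | c * b = c * c} ⊆
        {b : S | b * b = x} ∪
          (Prod.snd '' {p : S × S | p.1 * p.2 = x ∧ p.1 * p.1 ≠ x ∧ p.2 * p.2 ≠ x}) := by
      intro b hbm
      by_cases hbb : b * b = x
      · exact Or.inl hbb
      · refine Or.inr ⟨(c * c, b), ⟨?_, hne, hbb⟩, rfl⟩
        show c * c * b = x
        have hbm' : c * b = c * c := hbm
        rw [mul_assoc, hbm', hx, mul_assoc]
    exact ((ha x).union ((hb x).image _)).subset h1
  have h2 : c * c = x := by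
    by_contra hne
    -- products of two elements of `B` lie in a finite set
    have hfin : ({y : S | y * y = x} ∪
        (Prod.snd '' {p : S × S | p.1 * p.2 = x ∧ p.1 * p.1 ≠ x ∧ p.2 * p.2 ≠ x})).Finite :=
      (ha x).union ((hb x).image _)
    apply hc
    have h3 : {b : S | c * b = c * c} ⊆
        ⋃ y ∈ ({y : S | y * y = x} ∪
          (Prod.snd '' {p : S × S | p.1 * p.2 = x ∧ p.1 * p.1 ≠ x ∧ p.2 * p.2 ≠ x})),
          {b : S | b * b = y} := by
      intro b hbm
      have hbm' : c * b = c * c := hbm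
      refine Set.mem_biUnion (x := b * b) ?_ rfl
      by_cases hbb : (b * b) * (b * b) = x
      · exact Or.inl hbb
      · refine Or.inr ⟨(c, b * b), ⟨?_, hne, hbb⟩, rfl⟩
        show c * (b * b) = x
        rw [← mul_assoc, hbm', mul_assoc, hbm', hx, mul_assoc]
    exact (Set.Finite.biUnion hfin fun y _ => ha y).subset h3
  have hcc : (c * c) * (c * c) = c * c := by rw [h4, ← h2]
  refine ⟨hcc, hc.mono ?_⟩
  intro b hbm
  have hbm' : c * b = c * c := hbm
  show (c * c) * b = c * c
  rw [mul_assoc, hbm', ← mul_assoc, ← hx, ← h2]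

theorem idem_right {S : Type u} [Semigroup S]
    (ha : ∀ x : S, {c : S | c * c = x}.Finite)
    (hb : ∀ x : S, {p : S × S | p.1 * p.2 = x ∧ p.1 * p.1 ≠ x ∧ p.2 * p.2 ≠ x}.Finite)
    (c : S) (hc : {b : S | b * c = c * c}.Infinite) :
    (c * c) * (c * c) = c * c ∧ {b : S | b * (c * c) = c * c}.Infinite := by
  set x : S := c * c * c with hx
  have h4 : (c * c) * (c * c) = x := by
    by_contra hne
    apply hc
    have h1 : {b : S | b * c = c * c} ⊆
        {b : S | b * b = x} ∪
          (Prod.fst '' {p : S × S | p.1 * p.2 = x ∧ p.1 * p.1 ≠ x ∧ p.2 * p.2 ≠ x}) := by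
      intro b hbm
      by_cases hbb : b * b = x
      · exact Or.inl hbb
      · refine Or.inr ⟨(b, c * c), ⟨?_, hbb, hne⟩, rfl⟩
        show b * (c * c) = x
        have hbm' : b * c = c * c := hbm
        rw [← mul_assoc, hbm', hx]
    exact ((ha x).union ((hb x).image _)).subset h1
  have h2 : c * c = x := by
    by_contra hne
    have hfin : ({y : S | y * y = x} ∪
        (Prod.fst '' {p : S × S | p.1 * p.2 = x ∧ p.1 * p.1 ≠ x ∧ p.2 * p.2 ≠ x})).Finite :=
      (ha x).union ((hb x).image _)
    apply hc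
    have h3 : {b : S | b * c = c * c} ⊆
        ⋃ y ∈ ({y : S | y * y = x} ∪
          (Prod.fst '' {p : S × S | p.1 * p.2 = x ∧ p.1 * p.1 ≠ x ∧ p.2 * p.2 ≠ x})),
          {b : S | b * b = y} := by
      intro b hbm
      have hbm' : b * c = c * c := hbm
      refine Set.mem_biUnion (x := b * b) ?_ rfl
      by_cases hbb : (b * b) * (b * b) = x
      · exact Or.inl hbb
      · refine Or.inr ⟨(b * b, c), ⟨?_, hbb, hne⟩, rfl⟩
        show (b * b) * c = x
        rw [mul_assoc, hbm', ← mul_assoc, hbm', hx]
    exact (Set.Finite.biUnion hfin fun y _ => ha y).subset h3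
  have hcc : (c * c) * (c * c) = c * c := by rw [h4, ← h2]
  refine ⟨hcc, hc.mono ?_⟩
  intro b hbm
  have hbm' : b * c = c * c := hbm
  show b * (c * c) = c * c
  rw [← mul_assoc, hbm', ← hx, ← h2]

/-- An element with infinitely many factorisations is `c * c` with infinitely many `b` such that
`c * b = c * c` or `b * c = c * c`. -/
theorem exists_root {S : Type u} [Semigroup S]
    (ha : ∀ x : S, {c : S | c * c = x}.Finite)
    (hb : ∀ x : S, {p : S × S | p.1 * p.2 = x ∧ p.1 * p.1 ≠ x ∧ p.2 * p.2 ≠ x}.Finite)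
    (x : S) (hx : {p : S × S | p.1 * p.2 = x}.Infinite) :
    ∃ c : S, c * c = x ∧ ({b : S | c * b = c * c}.Infinite ∨ {b : S | b * c = c * c}.Infinite) := by
  by_contra hno
  push Not at hno
  apply hx
  have hsub : {p : S × S | p.1 * p.2 = x} ⊆
      {p : S × S | p.1 * p.2 = x ∧ p.1 * p.1 ≠ x ∧ p.2 * p.2 ≠ x} ∪
      ((⋃ c ∈ {c : S | c * c = x}, (Prod.mk c) '' {b : S | c * b = c * c}) ∪
       (⋃ c ∈ {c : S | c * c = x}, (fun b => (b, c)) '' {b : S | b * c = c * c})) := by
    rintro ⟨a, b⟩ hab
    have hab' : a * b = x := hab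
    by_cases h3 : a * a = x
    · refine Or.inr (Or.inl ?_)
      refine Set.mem_biUnion (x := a) h3 ⟨b, ?_, rfl⟩
      show a * b = a * a
      rw [hab', h3]
    · by_cases h4 : b * b = x
      · refine Or.inr (Or.inr ?_)
        refine Set.mem_biUnion (x := b) h4 ⟨a, ?_, rfl⟩
        show a * b = b * b
        rw [hab', h4]
      · exact Or.inl ⟨hab', h3, h4⟩
  refine Set.Finite.subset ((hb x).union (Set.Finite.union ?_ ?_)) hsub
  · refine Set.Finite.biUnion (ha x) fun c hc => Set.Finite.image _ ?_
    exact (hno c hc).1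
  · refine Set.Finite.biUnion (ha x) fun c hc => Set.Finite.image _ ?_
    exact (hno c hc).2

/-- Structure on the right side: `e` idempotent with `eb = e` for infinitely many `b`. -/
theorem struct_right {S : Type u} [Semigroup S]
    (ha : ∀ x : S, {c : S | c * c = x}.Finite)
    (hn : ∀ x : S, x * x ≠ x → {p : S × S | p.1 * p.2 = x}.Finite)
    (hb : ∀ x : S, {p : S × S | p.1 * p.2 = x ∧ p.1 * p.1 ≠ x ∧ p.2 * p.2 ≠ x}.Finite)
    (e : S) (he : {b : S | e * b = e}.Infinite) (x : S) :
    e * e = e ∧ {b : S | (x * e) * b = x * e}.Infinite ∧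
      (e * x = e ∨ (x * x * x = x * x ∧ {b : S | b * (x * x) = x * x}.Infinite)) := by
  have hid : e * e = e := by
    by_contra hne
    apply he
    exact ((hn e hne).image Prod.snd).subset fun b hbm => ⟨(e, b), hbm, rfl⟩
  refine ⟨hid, he.mono fun b hbm => ?_, ?_⟩
  · have : e * b = e := hbm
    show x * e * b = x * e
    rw [mul_assoc, this]
  by_cases hs : e * x = e
  · exact Or.inl hs
  right
  -- only finitely many `y` have `e * y = e * x`
  have hY : {y : S | e * y = e * x}.Finite := by
    have h1 : {y : S | e * y = e * x} ⊆ {y : S | y * y = e * x} ∪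
        (Prod.snd '' {p : S × S | p.1 * p.2 = e * x ∧ p.1 * p.1 ≠ e * x ∧ p.2 * p.2 ≠ e * x}) := by
      intro y hy
      by_cases hyy : y * y = e * x
      · exact Or.inl hyy
      · refine Or.inr ⟨(e, y), ⟨hy, ?_, hyy⟩, rfl⟩
        show e * e ≠ e * x
        rw [hid]; exact fun h => hs h.symm
    exact ((ha _).union ((hb _).image _)).subset h1
  -- for all but finitely many `b` in `R_e` the product `b * x` is `x * x`
  have key : ∀ z : S, e * z = e * x → {b : S | e * b = e ∧ b * z ≠ z * z}.Finite := by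
    intro z hz
    have h2 : {b : S | e * b = e ∧ b * z ≠ z * z} ⊆ ⋃ y ∈ {y : S | e * y = e * x},
        {b : S | b * z = y ∧ y ≠ z * z} := by
      rintro b ⟨hb1, hb2⟩
      refine Set.mem_biUnion (x := b * z) ?_ ⟨rfl, hb2⟩
      show e * (b * z) = e * x
      rw [← mul_assoc, hb1, hz]
    refine (Set.Finite.biUnion hY fun y _ => ?_).subset h2
    by_cases hyz : y = z * z
    · exact (Set.finite_empty).subset fun b hb1 => hb1.2 hyz
    · have h3 : {b : S | b * z = y ∧ y ≠ z * z} ⊆ {b : S | b * b = y} ∪
          (Prod.fst '' {p : S × S | p.1 * p.2 = y ∧ p.1 * p.1 ≠ y ∧ p.2 * p.2 ≠ y}) := by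
        rintro b ⟨hb1, -⟩
        by_cases hbb : b * b = y
        · exact Or.inl hbb
        · exact Or.inr ⟨(b, z), ⟨hb1, hbb, fun h => hyz h.symm⟩, rfl⟩
      exact ((ha _).union ((hb _).image _)).subset h3
  have hk1 := key x rfl
  -- some `b` in `R_e` has `b * x = x * x`
  have hinf1 : ({b : S | e * b = e} \ {b : S | e * b = e ∧ b * x ≠ x * x}).Infinite :=
    he.sdiff hk1
  obtain ⟨b₀, hb₀, hb₀'⟩ := hinf1.nonempty
  have hb₀e : e * b₀ = e := hb₀
  have hb₀x : b₀ * x = x * x := by
    by_contra h
    exact hb₀' ⟨hb₀e, h⟩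
  have hexx : e * (x * x) = e * x := by rw [← hb₀x, ← mul_assoc, hb₀e]
  have hk2 := key (x * x) hexx
  have hinf : (({b : S | e * b = e} \ {b : S | e * b = e ∧ b * x ≠ x * x}) \
      {b : S | e * b = e ∧ b * (x * x) ≠ (x * x) * (x * x)}).Infinite := hinf1.sdiff hk2
  have hgood : ∀ b ∈ (({b : S | e * b = e} \ {b : S | e * b = e ∧ b * x ≠ x * x}) \
      {b : S | e * b = e ∧ b * (x * x) ≠ (x * x) * (x * x)}),
      b * (x * x) = x * x * x ∧ b * (x * x) = (x * x) * (x * x) := by
    rintro b ⟨⟨hb1, hb2⟩, hb3⟩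
    have h1 : e * b = e := hb1
    have h2 : b * x = x * x := by
      by_contra h
      exact hb2 ⟨h1, h⟩
    have h3 : b * (x * x) = (x * x) * (x * x) := by
      by_contra h
      exact hb3 ⟨h1, h⟩
    refine ⟨?_, h3⟩
    rw [← mul_assoc, h2]
  -- `x * x` is idempotent because it has infinitely many factorisations `(b, x)`
  have hxx : (x * x) * (x * x) = x * x := by
    by_contra hne
    apply hinf1
    refine ((hn (x * x) hne).image Prod.fst).subset ?_
    rintro b ⟨hb1, hb2⟩
    have h1 : e * b = e := hb1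
    refine ⟨(b, x), ?_, rfl⟩
    show b * x = x * x
    by_contra h
    exact hb2 ⟨h1, h⟩
  obtain ⟨b₁, hb₁⟩ := hinf.nonempty
  obtain ⟨g1, g2⟩ := hgood b₁ hb₁
  refine ⟨by rw [← g1, g2, hxx], hinf.mono fun b hbm => ?_⟩
  show b * (x * x) = x * x
  rw [(hgood b hbm).2, hxx]

/-- Structure on the left side: `e` idempotent with `be = e` for infinitely many `b`. -/
theorem struct_left {S : Type u} [Semigroup S]
    (ha : ∀ x : S, {c : S | c * c = x}.Finite)
    (hn : ∀ x : S, x * x ≠ x → {p : S × S | p.1 * p.2 = x}.Finite)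
    (hb : ∀ x : S, {p : S × S | p.1 * p.2 = x ∧ p.1 * p.1 ≠ x ∧ p.2 * p.2 ≠ x}.Finite)
    (e : S) (he : {b : S | b * e = e}.Infinite) (x : S) :
    e * e = e ∧ {b : S | b * (e * x) = e * x}.Infinite ∧
      (x * e = e ∨ (x * x * x = x * x ∧ {b : S | (x * x) * b = x * x}.Infinite)) := by
  have hid : e * e = e := by
    by_contra hne
    apply he
    exact ((hn e hne).image Prod.fst).subset fun b hbm => ⟨(b, e), hbm, rfl⟩
  refine ⟨hid, he.mono fun b hbm => ?_, ?_⟩
  · have : b * e = e := hbm
    show b * (e * x) = e * x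
    rw [← mul_assoc, this]
  by_cases hs : x * e = e
  · exact Or.inl hs
  right
  have hY : {y : S | y * e = x * e}.Finite := by
    have h1 : {y : S | y * e = x * e} ⊆ {y : S | y * y = x * e} ∪
        (Prod.fst '' {p : S × S | p.1 * p.2 = x * e ∧ p.1 * p.1 ≠ x * e ∧ p.2 * p.2 ≠ x * e}) := by
      intro y hy
      by_cases hyy : y * y = x * e
      · exact Or.inl hyy
      · refine Or.inr ⟨(y, e), ⟨hy, hyy, ?_⟩, rfl⟩
        show e * e ≠ x * e
        rw [hid]; exact fun h => hs h.symm
    exact ((ha _).union ((hb _).image _)).subset h1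
  have key : ∀ z : S, z * e = x * e → {b : S | b * e = e ∧ z * b ≠ z * z}.Finite := by
    intro z hz
    have h2 : {b : S | b * e = e ∧ z * b ≠ z * z} ⊆ ⋃ y ∈ {y : S | y * e = x * e},
        {b : S | z * b = y ∧ y ≠ z * z} := by
      rintro b ⟨hb1, hb2⟩
      refine Set.mem_biUnion (x := z * b) ?_ ⟨rfl, hb2⟩
      show (z * b) * e = x * e
      rw [mul_assoc, hb1, hz]
    refine (Set.Finite.biUnion hY fun y _ => ?_).subset h2
    by_cases hyz : y = z * z
    · exact (Set.finite_empty).subset fun b hb1 => hb1.2 hyz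
    · have h3 : {b : S | z * b = y ∧ y ≠ z * z} ⊆ {b : S | b * b = y} ∪
          (Prod.snd '' {p : S × S | p.1 * p.2 = y ∧ p.1 * p.1 ≠ y ∧ p.2 * p.2 ≠ y}) := by
        rintro b ⟨hb1, -⟩
        by_cases hbb : b * b = y
        · exact Or.inl hbb
        · exact Or.inr ⟨(z, b), ⟨hb1, fun h => hyz h.symm, hbb⟩, rfl⟩
      exact ((ha _).union ((hb _).image _)).subset h3
  have hk1 := key x rfl
  have hinf1 : ({b : S | b * e = e} \ {b : S | b * e = e ∧ x * b ≠ x * x}).Infinite :=
    he.sdiff hk1
  obtain ⟨b₀, hb₀, hb₀'⟩ := hinf1.nonempty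
  have hb₀e : b₀ * e = e := hb₀
  have hb₀x : x * b₀ = x * x := by
    by_contra h
    exact hb₀' ⟨hb₀e, h⟩
  have hexx : (x * x) * e = x * e := by rw [← hb₀x, mul_assoc, hb₀e]
  have hk2 := key (x * x) hexx
  have hinf : (({b : S | b * e = e} \ {b : S | b * e = e ∧ x * b ≠ x * x}) \
      {b : S | b * e = e ∧ (x * x) * b ≠ (x * x) * (x * x)}).Infinite := hinf1.sdiff hk2
  have hgood : ∀ b ∈ (({b : S | b * e = e} \ {b : S | b * e = e ∧ x * b ≠ x * x}) \
      {b : S | b * e = e ∧ (x * x) * b ≠ (x * x) * (x * x)}),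
      (x * x) * b = x * x * x ∧ (x * x) * b = (x * x) * (x * x) := by
    rintro b ⟨⟨hb1, hb2⟩, hb3⟩
    have h1 : b * e = e := hb1
    have h2 : x * b = x * x := by
      by_contra h
      exact hb2 ⟨h1, h⟩
    have h3 : (x * x) * b = (x * x) * (x * x) := by
      by_contra h
      exact hb3 ⟨h1, h⟩
    refine ⟨?_, h3⟩
    rw [mul_assoc, h2, mul_assoc]
  have hxx : (x * x) * (x * x) = x * x := by
    by_contra hne
    apply hinf1
    refine ((hn (x * x) hne).image Prod.snd).subset ?_
    rintro b ⟨hb1, hb2⟩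
    have h1 : b * e = e := hb1
    refine ⟨(x, b), ?_, rfl⟩
    show x * b = x * x
    by_contra h
    exact hb2 ⟨h1, h⟩
  obtain ⟨b₁, hb₁⟩ := hinf.nonempty
  obtain ⟨g1, g2⟩ := hgood b₁ hb₁
  refine ⟨by rw [← g1, g2, hxx], hinf.mono fun b hbm => ?_⟩
  show (x * x) * b = x * x
  rw [(hgood b hbm).2, hxx]

/-- **Criterion.**  A semigroup has both properties if and only if
(a) every `x` has only finitely many square roots, (b) every `x` that is not idempotent has only
finitely many factorisations `x = ab`, (c) every idempotent `e` has only finitely many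
factorisations `e = ab` with `a² ≠ e` and `b² ≠ e`, and (d) there is an idempotent `e` such that
`eb = e` or `be = e` for infinitely many `b`.

Structure: let `R` (`L`) be the set of the `e` with `eb = e` (`be = e`) for infinitely many `b`.
If `S` has both properties then every element outside `R ∪ L` has only finitely many
factorisations; `R` consists of idempotents, `xe ∈ R` for `e ∈ R`, and for `e ∈ R` and `x ∈ S`
either `ex = e` or `x³ = x² ∈ L`; and dually for `L`. -/
theorem criterion (S : Type u) [Semigroup S] :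
    ((Property1 S ∧ Property2 S) ↔
      ((∀ x : S, {c : S | c * c = x}.Finite) ∧
       (∀ x : S, x * x ≠ x → {p : S × S | p.1 * p.2 = x}.Finite) ∧
       (∀ e : S, e * e = e →
          {p : S × S | p.1 * p.2 = e ∧ p.1 * p.1 ≠ e ∧ p.2 * p.2 ≠ e}.Finite) ∧
       ∃ e : S, e * e = e ∧ {b : S | e * b = e ∨ b * e = e}.Infinite)) ∧
    (Property1 S → Property2 S →
      (∀ x : S, {p : S × S | p.1 * p.2 = x}.Infinite →
        {b : S | x * b = x}.Infinite ∨ {b : S | b * x = x}.Infinite) ∧
      (∀ e : S, {b : S | e * b = e}.Infinite → e * e = e ∧ ∀ x : S,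
        {b : S | (x * e) * b = x * e}.Infinite ∧
        (e * x = e ∨ (x * x * x = x * x ∧ {b : S | b * (x * x) = x * x}.Infinite))) ∧
      (∀ e : S, {b : S | b * e = e}.Infinite → e * e = e ∧ ∀ x : S,
        {b : S | b * (e * x) = e * x}.Infinite ∧
        (x * e = e ∨ (x * x * x = x * x ∧ {b : S | (x * x) * b = x * x}.Infinite)))) := by
  have hiff : (Property1 S ∧ Property2 S) ↔
      ((∀ x : S, {c : S | c * c = x}.Finite) ∧
       (∀ x : S, x * x ≠ x → {p : S × S | p.1 * p.2 = x}.Finite) ∧
       (∀ e : S, e * e = e →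
          {p : S × S | p.1 * p.2 = e ∧ p.1 * p.1 ≠ e ∧ p.2 * p.2 ≠ e}.Finite) ∧
       ∃ e : S, e * e = e ∧ {b : S | e * b = e ∨ b * e = e}.Infinite) := by
    rw [main S]
    constructor
    · rintro ⟨ha, hb, x, hx⟩
      refine ⟨ha, ?_, fun e _ => hb e, ?_⟩
      · intro y hy
        by_contra hinf
        obtain ⟨c, hcy, h | h⟩ := exists_root ha hb y hinf
        · exact hy (by rw [← hcy]; exact (idem_left ha hb c h).1)
        · exact hy (by rw [← hcy]; exact (idem_right ha hb c h).1)
      · obtain ⟨c, -, h | h⟩ := exists_root ha hb x hx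
        · obtain ⟨h1, h2⟩ := idem_left ha hb c h
          exact ⟨c * c, h1, h2.mono fun b hb' => Or.inl hb'⟩
        · obtain ⟨h1, h2⟩ := idem_right ha hb c h
          exact ⟨c * c, h1, h2.mono fun b hb' => Or.inr hb'⟩
    · rintro ⟨ha, hn, hb, e, he, hi⟩
      refine ⟨ha, ?_, e, fun hfin => hi ?_⟩
      · intro x
        by_cases hx : x * x = x
        · exact hb x hx
        · exact (hn x hx).subset fun p hp => hp.1
      · have : {b : S | e * b = e ∨ b * e = e} ⊆
            (Prod.snd '' {p : S × S | p.1 * p.2 = e}) ∪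
            (Prod.fst '' {p : S × S | p.1 * p.2 = e}) := by
          rintro b (h | h)
          · exact Or.inl ⟨(e, b), h, rfl⟩
          · exact Or.inr ⟨(b, e), h, rfl⟩
        exact ((hfin.image _).union (hfin.image _)).subset this
  refine ⟨hiff, fun hp1 hp2 => ?_⟩
  obtain ⟨ha, hn, -, -⟩ := hiff.1 ⟨hp1, hp2⟩
  obtain ⟨-, hb, -⟩ := (main S).1 ⟨hp1, hp2⟩
  refine ⟨?_, ?_, ?_⟩
  · intro x hx
    obtain ⟨c, hcx, h | h⟩ := exists_root ha hb x hx
    · left
      have := (idem_left ha hb c h).2
      rwa [hcx] at this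
    · right
      have := (idem_right ha hb c h).2
      rwa [hcx] at this
  · intro e he
    exact ⟨(struct_right ha hn hb e he e).1, fun x => (struct_right ha hn hb e he x).2⟩
  · intro e he
    exact ⟨(struct_left ha hn hb e he e).1, fun x => (struct_left ha hn hb e he x).2⟩

/-- **The semigroups with Properties 1 and 2.**  A semigroup `S` has both properties if and only if
there is an ideal `I` of `S` consisting of idempotents such that (i) every `x` outside `I` has only
finitely many factorisations `x = ab`, (ii) every `e ∈ I` has only finitely many square roots and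
only finitely many factorisations `e = ab` with `a² ≠ e` and `b² ≠ e`, (iii) for some `e ∈ I` there
are infinitely many `b` with `eb = e` or `be = e`.

Equivalently: (a) every `x` has only finitely many square roots, (b) every `x` that is not
idempotent has only finitely many factorisations, (c) every idempotent `e` has only finitely many
factorisations `e = ab` with `a² ≠ e` and `b² ≠ e`, (d) for some idempotent `e` there are
infinitely many `b` with `eb = e` or `be = e`.

Structure: let `R` (`L`) be the set of the `e` with `eb = e` (`be = e`) for infinitely many `b`.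
If `S` has both properties then every element with infinitely many factorisations is in `R ∪ L`;
`R ∪ L` is an ideal and consists of idempotents; for `e ∈ R` and `x ∈ S`: `xe ∈ R`, `ex² = ex`, and
`ex = e` or `x³ = x² ∈ L`; for `e ∈ L` and `x ∈ S`: `ex ∈ L`, `x²e = xe`, and `xe = e` or
`x³ = x² ∈ R`. -/
theorem result (S : Type u) [Semigroup S] :
    ((Property1 S ∧ Property2 S) ↔
      ∃ I : Set S,
        (∀ e ∈ I, e * e = e) ∧
        (∀ e ∈ I, ∀ x : S, e * x ∈ I ∧ x * e ∈ I) ∧
        (∀ x : S, x ∉ I → {p : S × S | p.1 * p.2 = x}.Finite) ∧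
        (∀ e ∈ I, {c : S | c * c = e}.Finite ∧
          {p : S × S | p.1 * p.2 = e ∧ p.1 * p.1 ≠ e ∧ p.2 * p.2 ≠ e}.Finite) ∧
        ∃ e ∈ I, {b : S | e * b = e ∨ b * e = e}.Infinite) ∧
    ((Property1 S ∧ Property2 S) ↔
      ((∀ x : S, {c : S | c * c = x}.Finite) ∧
       (∀ x : S, x * x ≠ x → {p : S × S | p.1 * p.2 = x}.Finite) ∧
       (∀ e : S, e * e = e →
          {p : S × S | p.1 * p.2 = e ∧ p.1 * p.1 ≠ e ∧ p.2 * p.2 ≠ e}.Finite) ∧
       ∃ e : S, e * e = e ∧ {b : S | e * b = e ∨ b * e = e}.Infinite)) ∧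
    (Property1 S → Property2 S →
      (∀ x : S, {p : S × S | p.1 * p.2 = x}.Infinite →
        {b : S | x * b = x}.Infinite ∨ {b : S | b * x = x}.Infinite) ∧
      (∀ e : S, ({b : S | e * b = e}.Infinite ∨ {b : S | b * e = e}.Infinite) → e * e = e ∧
        ∀ x : S,
          ({b : S | (e * x) * b = e * x}.Infinite ∨ {b : S | b * (e * x) = e * x}.Infinite) ∧
          ({b : S | (x * e) * b = x * e}.Infinite ∨ {b : S | b * (x * e) = x * e}.Infinite)) ∧
      (∀ e : S, {b : S | e * b = e}.Infinite → ∀ x : S,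
        {b : S | (x * e) * b = x * e}.Infinite ∧ e * (x * x) = e * x ∧
        (e * x = e ∨ (x * x * x = x * x ∧ {b : S | b * (x * x) = x * x}.Infinite))) ∧
      (∀ e : S, {b : S | b * e = e}.Infinite → ∀ x : S,
        {b : S | b * (e * x) = e * x}.Infinite ∧ (x * x) * e = x * e ∧
        (x * e = e ∨ (x * x * x = x * x ∧ {b : S | (x * x) * b = x * x}.Infinite)))) := by
  obtain ⟨hiff, hstr⟩ := criterion S
  -- the two-sided ideal of the elements with infinitely many factorisations
  have hideal : Property1 S → Property2 S → ∀ e : S,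
      ({b : S | e * b = e}.Infinite ∨ {b : S | b * e = e}.Infinite) → e * e = e ∧
        ∀ x : S,
          ({b : S | (e * x) * b = e * x}.Infinite ∨ {b : S | b * (e * x) = e * x}.Infinite) ∧
          ({b : S | (x * e) * b = x * e}.Infinite ∨
            {b : S | b * (x * e) = x * e}.Infinite) := by
    intro hp1 hp2
    obtain ⟨ha, hn, hc, -⟩ := hiff.1 ⟨hp1, hp2⟩
    obtain ⟨hI, hR, hL⟩ := hstr hp1 hp2
    have hb : ∀ x : S, {p : S × S | p.1 * p.2 = x ∧ p.1 * p.1 ≠ x ∧ p.2 * p.2 ≠ x}.Finite := by
      intro x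
      by_cases hx : x * x = x
      · exact hc x hx
      · exact (hn x hx).subset fun p hp => hp.1
    have hid : ∀ x : S, {b : S | x * b = x}.Infinite → x * x = x := fun x hx => (hR x hx).1
    have hid' : ∀ x : S, {b : S | b * x = x}.Infinite → x * x = x := fun x hx => (hL x hx).1
    rintro e (he | he)
    · exact ⟨hid e he, fun x => ⟨Pool.Agent.Helper35.SG.right_mul_mem ha hb hI hid hid' e x he,
        Or.inl ((hR e he).2 x).1⟩⟩
    · exact ⟨hid' e he, fun x => ⟨Or.inr ((hL e he).2 x).1,
        Pool.Agent.Helper35.SG.left_mul_mem ha hb hI hid hid' e x he⟩⟩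
  refine ⟨⟨?_, ?_⟩, hiff, ?_⟩
  · intro hP
    obtain ⟨ha, hn, hc, e₀, he₀, hi₀⟩ := hiff.1 hP
    obtain ⟨hI, -, -⟩ := hstr hP.1 hP.2
    have hid := hideal hP.1 hP.2
    refine ⟨{x : S | {b : S | x * b = x}.Infinite ∨ {b : S | b * x = x}.Infinite},
      fun e he => (hid e he).1, fun e he => (hid e he).2, ?_, fun e he => ⟨ha e, ?_⟩, ?_⟩
    · intro x hx
      by_contra h
      exact hx (hI x h)
    · exact hc e (hid e he).1
    · refine ⟨e₀, ?_, hi₀⟩
      by_contra h
      have h' := not_or.1 h
      apply hi₀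
      exact ((Set.not_infinite.1 h'.1).union (Set.not_infinite.1 h'.2)).subset fun b hb' => hb'
  · rintro ⟨I, h1, -, h3, h4, e, he, hi⟩
    refine hiff.2 ⟨?_, ?_, ?_, e, h1 e he, hi⟩
    · intro x
      by_cases hx : x ∈ I
      · exact (h4 x hx).1
      · exact ((h3 x hx).image Prod.fst).subset fun c hc => ⟨(c, c), hc, rfl⟩
    · intro x hx
      exact h3 x fun hxI => hx (h1 x hxI)
    · intro x hx
      by_cases hxI : x ∈ I
      · exact (h4 x hxI).2
      · exact (h3 x hxI).subset fun p hp => hp.1
  · intro hp1 hp2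
    obtain ⟨ha, hn, hc, -⟩ := hiff.1 ⟨hp1, hp2⟩
    obtain ⟨hI, hR, hL⟩ := hstr hp1 hp2
    have hb : ∀ x : S, {p : S × S | p.1 * p.2 = x ∧ p.1 * p.1 ≠ x ∧ p.2 * p.2 ≠ x}.Finite := by
      intro x
      by_cases hx : x * x = x
      · exact hc x hx
      · exact (hn x hx).subset fun p hp => hp.1
    refine ⟨hI, hideal hp1 hp2, fun e he x => ?_, fun e he x => ?_⟩
    · exact ⟨((hR e he).2 x).1, Pool.Agent.Helper35.SG.sq_right ha hb e x he (hR e he).1,
        ((hR e he).2 x).2⟩
    · exact ⟨((hL e he).2 x).1, Pool.Agent.Helper35.SG.sq_left ha hb e x he (hL e he).1,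
        ((hL e he).2 x).2⟩

end Pool.Agent.Results.MP_3b8abe_co.TwoFoldCriterion
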